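import Pool.Agent.Run7.h615.WL.Cor
import Pool.Agent.Run7.h615.WL.PhiN

/-!
# MP_d037d4_ag: the `p`-adic weight-monodromy conjecture for varieties dominated by varieties whose
degenerations have simple strata
-/

set_option autoImplicit false

open Module

universe u

namespace Pool.Agent.Results.MP_d037d4_ag.HarmlessStrata

open Pool.Agent.Y143 Run7.h615.WL

/-- **The `p`-adic weight-monodromy conjecture for smooth projective varieties `Y` dominated by
varieties whose degenerations have simple strata.** Let `Y` be a smooth projective variety over `K`,
and `R = H^m_HK(Y)` its Hyodo-Kato cohomology: a `(φ, N)`-module over `K_0`, with the linear operator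
`R.F = φ ^ f`; the residue field has `q = p ^ f` elements, and `Ω` is an algebraically closed field
containing `K_0`. After a finite extension of `K` (this changes nothing in the weight condition),
there is a smooth projective variety `Y'` over `K` with a surjective map to `Y` which has a projective
strictly semistable model over the ring of integers, of dimension `n = dim Y` (de Jong). Then
`Ω ⊗ H^m_HK(Y)` is a direct summand of `Ω ⊗ H^m_HK(Y')`, with `φ ^ f` and `N` (`hR : IsDominated`: by the
pull-back and a multiple of the push-forward). The structure `Y'` below is the weight spectral
sequence of Mokrane over `Ω`: the crystalline cohomology of the strata with the Frobenius and all maps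
between them, converging to the log-crystalline cohomology `Ω ⊗ H^m_HK(Y')` of the special fibre, with
its Frobenius and its monodromy operator.

`Y^(a+1)`, of dimension `n - a`, is the disjoint union of the intersections of `a + 1` different
components of the special fibre of the model of `Y'`, and `H^w` is the crystalline cohomology.
Suppose that for all `a ≥ 0` and `w ≥ 2` with `a + 1 + w ≤ min(m, 2 n - m)` (so `w < dim Y^(a+1)`, and
`dim Y^(a+1) ≥ 3`) every character `χ` (generalized eigenvalue of the Frobenius) is harmless,
`HarmlessAt`: one of the following is true.

* The primitive part for `χ` of the term `E_1^(a+1, w)` of the weight spectral sequence has dimension at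
  most one, or it is contained in the coboundaries or meets them in zero, or the primitive part
  for the dual character is contained in the coboundaries.
* `w = 2` and the classes of character `χ` in `H^2(Y^(a+1))` are combinations of divisor classes.
* `w ≥ 3` and the classes of character `χ` in `H^w(Y^(a+1))` are in `L H^(w-2)(Y^(a+1))`.
* `w = 2 c + 2`, the classes of character `χ` in `H^w(Y^(a+1))` and all classes in `H^(2c)(Y^(a+2))` are
  algebraic, and the classes of cycles of codimension `c + 1` on `Y^(a+2)` satisfy the Hodge
  standard conjecture.

(In the last three cases up to classes with restriction zero to `Y^(a+2)` or, more generally, a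
space `T` as in `GeneratedBy`.) Then the conjecture holds for `H^m_HK(Y)`: the Frobenius action on
`gr_j` of the monodromy filtration of `H^m_HK(Y)` is pure of weight `m + j`, for all `j`.

For example this is so in all degrees `m` if for all strata `Y^(a+1)` of dimension `d ≥ 3`, `H^2` is
spanned by divisor classes and `H^w = L H^(w-2)` for `3 ≤ w < d`, up to classes with restriction zero to
`Y^(a+2)`; for example if these strata are complete intersections in projective spaces or blow-ups of
complete intersections along complete intersections of codimension two. There is no condition on the
middle cohomology of the strata, and on the strata of dimension one and two. -/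
theorem result {Ω : Type u} [Field Ω] [CharZero Ω] [IsAlgClosed Ω] {Γ : Type} {n p f : ℕ}
    (hp : p ≠ 0) (Y' : Degeneration.{u, u} Ω Γ n (p ^ f)) (A : DivisorClasses Y'.toSpecialFibre)
    (C : CycleClasses Y'.toSpecialFibre) (m : ℕ)
    (h : ∀ (a w : ℕ) (χ : Γ → Ω), 2 ≤ w → a + 1 + w ≤ m → a + 1 + w + m ≤ 2 * n →
      HarmlessAt A C a w χ)
    {K : Type u} [Field K] [Algebra K Ω] {σ : K →+* K} (R : PhiNModule K σ p f)
    (hR : R.IsDominated (Y'.actV m Y'.frob) (Y'.N m)) :
    R.IsPure Ω m :=
  R.isPure_of_isDominated hp hR (mw_of_harmless Y' A C m h)

end Pool.Agent.Results.MP_d037d4_ag.HarmlessStrata
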