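import Pool.Agent.Run7.h307.WM2.Main
import Pool.Agent.Run7.h615.WL.PhiN

/-!
# MP_d037d4_ag: the `p`-adic weight-monodromy conjecture near a normal crossing fibre

Let `K` be a finite extension of `ℚ_p`, whose residue field has `q` elements, `B` a smooth variety over
`K`, `D = D_1 ∪ … ∪ D_r` a divisor with strict normal crossings on `B`, with `D_j` given by `u_j = 0`, and
`0 ∈ B(K)` a point of `D_1 ∩ … ∩ D_r`. Let `f : 𝒳 → B` be a projective family, smooth over `B - D`, with
unipotent local monodromy at `0` (for `r = 1` and `dim B = 1`, this is the case if the fibre over `0` is a
reduced divisor with strict normal crossings on the regular scheme `𝒳`). Nothing is assumed about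
models over the ring of integers of `K`: the degeneration takes place in characteristic zero.

Choose a curve `C → B` through `0`, `u_j = (unit) u ^ (a_j)`, `a_j ≥ 1`, such that the family over `C` has a
semistable model, and let `Y` be the degenerate fibre of this model. All cohomology groups are
Hyodo-Kato cohomology groups, with coefficients extended to an algebraically closed field `Ω` which
contains the maximal unramified extension of `K`, with the linear Frobenius `Φ = φ ^ f_K` (`q = p ^ f_K`)
and the monodromy operator: they satisfy `N Φ = q Φ N`. The limit cohomology is the realization of the
motivic nearby cycles; it has the weight spectral sequence which starts with the Hyodo-Kato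
cohomology of the strata of `Y`, the monodromy operators `N_j` of the family (around the `D_j`) and the
monodromy operator `N_K` over `K`. After extension of scalars to `\bar K` it is the limit de Rham
cohomology, so that the theorems of Steenbrink and of Cattani and Kaplan on the `N_j` hold.
Near `0` the Hyodo-Kato cohomology of `X_t` is the limit cohomology with the monodromy operator
`ram(t) N_K + ∑ v(u_j(t)) N_j` (local constancy: pull-back along the maps of log points given by `t`).

Suppose that the strata of `Y` (the intersections of its components, smooth projective varieties over
`K`) satisfy the `p`-adic weight-monodromy conjecture; only the cohomology groups in the degrees `m`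
with `3 ≤ m ≤ 2 dim - 3` matter, since the others are known to be pure. For fibres of dimension three
this means the `H^3` of the components of `Y`, and it is enough that these are uniruled threefolds for
which `H^3` comes from curves, for example rationally connected (Bloch-Srinivas).

Then all fibres `X_t` (`t` a point of `B - D` with values in a finite extension `K(t)` of `K`, close to
`0`), and all smooth projective varieties which are dominated by `X_t` over `K(t)`, satisfy the
`p`-adic weight-monodromy conjecture, unless the vector `(v(u_1(t)), …, v(u_r(t)))` of valuations lies
in an exceptional set `S`. It is contained in an algebraic hypersurface and it contains only finitely many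
points of each ray in the open cone `v_j > 0`. (For `r = 1` it is finite; so there are no exceptions
near `0`.)

Idea of the proof. The graded pieces of the monodromy filtration of `∑ b_j N_j`, `b_j > 0`, are pure with
respect to `N_K`, since the `E_2` term of the weight spectral sequence of the family over `C` (in
characteristic zero!) is. So there are two commuting Lefschetz operators on the bigraded space, whose
sum is a Lefschetz operator. This shows that `(N_K + X ∑ b_j N_j)^a`, where `X` is a variable, is
injective from the part of weight `m + a` to the part of weight `m - a`; these parts have the same
dimension, and so `(N_K + ∑ c_j N_j)^a` is bijective unless a certain nonzero polynomial (a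
determinant) vanishes at `c`.
-/

set_option autoImplicit false

open Pool.Agent.Y143 Run7.h307.WM Run7.h307.WM2 Run7.h615.WL

namespace Pool.Agent.Results.MP_d037d4_ag.NearNormalCrossings

/-- **The `p`-adic weight-monodromy conjecture near a normal crossing fibre.** Let `X` be a projective
family with `r` parameters over the `p`-adic field `K`, with a degenerate fibre `Y` over `0` (for a curve in
the base), such that for all `a` and all `m` with `3 ≤ m ≤ 2 dim Y^(a+1) - 3` the Hyodo-Kato cohomology
`H^m(Y^(a+1))` is mw pure of weight `m`, or a direct factor of a twist of a mw pure one (`h`).

Then there is a set `S` of exceptional vectors of valuations, contained in the zero set of a nonzero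
polynomial, and with finitely many points on each ray of the open cone, such that for all `t` with
`v(u(t)) ∉ S` the following holds in all degrees `m`. Let `R = H^m_HK(Y')` be the Hyodo-Kato cohomology of
a smooth projective variety `Y'` over `K(t)`, a `(φ, N)`-module over the maximal absolutely unramified
subfield `K₀` of `K(t)`, where the residue field of `K(t)` has `p ^ f = q ^ deg t` elements, and suppose that
there is a surjective map from `X_t` to `Y'` (`R.IsDominated`: then `Ω ⊗ R` is a direct summand of the
cohomology of `X_t`, by the pull-back and a multiple of the push-forward; for example `Y' = X_t`). Then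
`R.IsPure Ω m`: the Frobenius action on `gr_j` of the monodromy filtration of `H^m_HK(Y')` is pure of
weight `m + j`, for all `j`. -/
theorem result {Ω : Type} [Field Ω] [CharZero Ω] [IsAlgClosed Ω] {n q r : ℕ} (hq : 1 < q)
    (X : PolyFamily Ω n q r) (h : X.StrataPure) :
    ∃ S : Set (Fin r → ℚ),
      (∃ P : MvPolynomial (Fin r) ℚ, P ≠ 0 ∧ ∀ c ∈ S, MvPolynomial.eval c P = 0) ∧
      (∀ b : Fin r → ℕ, (∀ j, 0 < b j) → {s : ℚ | (fun j => s * b j) ∈ S}.Finite) ∧
      ∀ t : X.fibres.Point, X.fibres.valuation t ∉ S → ∀ (m p f : ℕ) (K₀ : Type) (_ : Field K₀)
        (_ : Algebra K₀ Ω) (σ : K₀ →+* K₀) (R : PhiNModule K₀ σ p f), 0 < p →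
        p ^ f = q ^ X.fibres.deg t → R.IsDominated (X.fibres.frob t m) (X.fibres.mon t m) →
        R.IsPure Ω m := by
  obtain ⟨S, hP, hray, hS⟩ := main hq X h
  refine ⟨S, hP, hray, fun t ht m p f K₀ _ _ σ R hp hf hR => ?_⟩
  have h1 := hS t ht m
  rw [← hf] at h1
  exact R.isPure_of_isDominated hp.ne' hR h1

end Pool.Agent.Results.MP_d037d4_ag.NearNormalCrossings
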