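import Pool.Agent.Run7.h615.WS.Low
import Pool.Agent.Run7.h615.WL.PhiN

/-!
# MP_d037d4_ag: the `p`-adic weight-monodromy conjecture for varieties dominated by varieties whose
reduction has fibred components and simple Frobenius spectrum
-/

set_option autoImplicit false

open Module

universe u

namespace Pool.Agent.Results.MP_d037d4_ag.SimpleSpectrum

open Pool.Agent.Y143 Pool.Agent.X302.MW Run7.h615.WL Run7.h615.WS

/-- **The `p`-adic weight-monodromy conjecture for smooth projective varieties `Y` dominated by a
variety whose reduction has fibred components and simple Frobenius spectrum.** Let `Y` be a smooth
projective variety over `K`, and `R = H^m_HK(Y)` its Hyodo-Kato cohomology: a `(φ, N)`-module over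
`K_0`, with the linear operator `R.F = φ ^ f`; the residue field has `q = p ^ f` elements, and `Ω`
is an algebraically closed field containing `K_0`. Let `Y'` be a smooth projective variety of
dimension `n` over `K` with a map to `Y` which has a projective strictly semistable model over the
ring of integers. The map is surjective, or `m ≤ n` and the map dominates a linear section of `Y`
of dimension `n`. After a finite extension of `K` (this changes nothing in the weight condition)
there is such a `Y'` for all `Y`, by de Jong's theorem and the Lefschetz theorems. Then `Ω ⊗
H^m_HK(Y)` is a direct summand of `Ω ⊗ H^m_HK(Y')`, with `φ ^ f` and `N` (`h' : IsDominated`: by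
the pull-back and a map given by the push-forward). The structure `Y'` below is the weight spectral
sequence of Mokrane over `Ω`: the crystalline cohomology of the strata with the Frobenius and all
maps between them, converging to the log-crystalline cohomology `Ω ⊗ H^m_HK(Y')` of the special
fibre, with its Frobenius and its monodromy operator.

`H^w` is the crystalline cohomology. `Y^(a+1)`, of dimension `n - a`, is the disjoint union of the
intersections of `a + 1` different components of the special fibre of the model of `Y'`; let `Z_i`
(`i : I`) be the components of `Y^(a+1)` and `D_j` (`j : J`) the components of `Y^(a+2)`, defined
over the residue field. Suppose that for all `a ≥ 0` and `w ≥ 2` with `a + 1 + w ≤ min(m, 2 n - m)`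
(for a threefold this is `a = 0`, `w = 2` only) the following condition (`FibredAt`) is true. The
cohomology `H^w(Y^(a+1))` is generated by

* the classes of divisors, if `w = 2`, and the multiples of the class `L` of an ample divisor, if
  `w ≥ 3`;
* classes with restriction zero to `Y^(a+2)`;
* for each `i`, a space `T i` of classes on `Z_i` which comes from a smooth projective variety
  `S_i` of dimension `w`, the base of a fibration of `Z_i` (or of a covering of `Z_i`): the
  restriction from `T i` to `D_j` multiplies the intersection form `form i` of `S_i` by the degree
  `deg i j ≥ 0` of `D_j ∩ L^(d-1-w)` over `S_i` (`d = n - a`), and it is zero if this degree is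
  zero.

Moreover, for each link, that is a `D_j` which is mapped onto `S_i` for at least two of the `Z_i`
which contain it, the Frobenius has simple spectrum on the transcendental part of `H^w(D_j)`: the
generalized eigenspaces in the classes orthogonal to the classes of divisors (for `w = 2`), or to
the multiples of `L` (for `w ≥ 3`), have dimension at most one; this is only necessary for the
eigenvalues `α` which occur on `T i` for two of these `i`.

Then `φ ^ f` acts on the graded piece `gr_j` of the monodromy filtration of `H^m_HK(Y)` with pure
weight `m + j`, for all `j`.

For threefolds the condition is satisfied if all components `Z_i` of the special fibre are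
uniruled, or have no transcendental cycles, and the Frobenius on the transcendental part of the
second cohomology of the double surfaces has no multiple eigenvalue: if `P → Z_i` is a dominant map
of degree `e` and `P` has a fibration over a surface `S` whose general fibre is a rational curve,
with image `C` in `Z_i`, then `H^2(Z_i)` is the direct sum of the classes of divisors and the space
`T i` of the classes `x` whose pull-back to `P` is the pull-back of a class `x_S` on `S` which is
orthogonal to the classes of curves, `form i x y = (x_S . y_S) / e` and `deg i j = D_j . C`. There
is no condition on the dual complex, on the geometric genus of the double surfaces or on `H^3`, and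
the Tate conjecture is not assumed. In dimension `n ≥ 4` an example is a chain or a cycle of
projective line bundles over smooth complete intersections `S_i` of dimension `n - 1`, glued along
sections, such that the Frobenius has simple spectrum on the primitive cohomology of the `S_i`, if
all strata of dimension at least three are complete intersections, or blow-ups of complete
intersections along complete intersections of codimension two.

The fields of the structures are known facts: `Degeneration` is the cohomology of the strata and of
the generic fibre of `Y'` with the weight spectral sequence and the hard Lefschetz theorem;
`DivisorClasses` has the Hodge index theorem and Weil's positivity; the composites of the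
restrictions `T i → H^w(D_j)` and their transposes `H^w(D_j) → T i'` are given by algebraic
correspondences, so together with powers of the Frobenius they have rational traces
(`HasRationalTraces`). -/
theorem result {Ω : Type u} [Field Ω] [CharZero Ω] [IsAlgClosed Ω] {Γ : Type} {n p f : ℕ}
    (hp : p.Prime) (Y' : Degeneration.{u, u} Ω Γ n (p ^ f)) (A : DivisorClasses Y'.toSpecialFibre)
    (m : ℕ)
    (h : ∀ a w : ℕ, 2 ≤ w → a + 1 + w ≤ m → a + 1 + w + m ≤ 2 * n → FibredAt A a w)
    {K : Type u} [Field K] [Algebra K Ω] {σ : K →+* K} (R : PhiNModule K σ p f)
    (h' : R.IsDominated (Y'.actV m Y'.frob) (Y'.N m)) :
    R.IsPure Ω m :=
  R.isPure_of_isDominated hp.ne_zero h' (mw_of_fibred Y' A m h)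

end Pool.Agent.Results.MP_d037d4_ag.SimpleSpectrum
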