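import Pool.Agent.Run7.h615.WM.Final
import Pool.Agent.Run7.h615.WM.IntDefs
import Pool.Agent.Run7.h615.WL.PhiN

/-!
# MP_d037d4_ag: the `p`-adic weight-monodromy conjecture for varieties dominated by threefolds with
uniruled reduction
-/

set_option autoImplicit false

open Module

universe u

namespace Pool.Agent.Results.MP_d037d4_ag.UniruledReduction

open Pool.Agent.Y143 Pool.Agent.X302.MW Run7.h615.WL Run7.h615.WM
open scoped NNReal

/-- **The `p`-adic weight-monodromy conjecture for smooth projective varieties `Y` dominated by
threefolds with uniruled reduction whose links form a forest.** Let `Y` be a smooth projective variety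
over `K`, and `R = H^m_HK(Y)` its Hyodo-Kato cohomology: a `(φ, N)`-module over `K_0`, with the linear
operator `R.F = φ ^ f`; the residue field has `q = p ^ f` elements, and `Ω` is an algebraically closed
field containing `K_0`. Let `Y'` be a smooth projective threefold over `K` with a map to `Y` which has a
projective strictly semistable model over the ring of integers. The map is surjective, or `m ≤ 3` and
the map dominates a linear section of `Y` of dimension three. After a finite extension of `K` (this
changes nothing in the weight condition) there is such a `Y'` for all `Y` of dimension at most three,
and for all `Y` if `m ≤ 3`, by de Jong's theorem and the Lefschetz theorems. Then `Ω ⊗ H^m_HK(Y)` is a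
direct summand of `Ω ⊗ H^m_HK(Y')`, with `φ ^ f` and `N` (`h : IsDominated`: by the pull-back and a map
given by the push-forward). The structure `Y'` below is the weight spectral sequence of Mokrane over
`Ω`: the crystalline cohomology of the strata with the Frobenius and all maps between them, converging
to the log-crystalline cohomology `Ω ⊗ H^m_HK(Y')` of the special fibre, with its Frobenius and its
monodromy operator.

Let `Z_i` (`i : I`) be the components of the special fibre of the model of `Y'` and `D_j` (`j : J`) the
double surfaces. `H^2` is the crystalline cohomology. Suppose that

(1) the `Z_i` satisfy the Tate conjecture for divisors (`hT`);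

(2) on the non-Tate part of `H^2(Z_i)` (the Frobenius eigenvalues which are not of the form `q ζ` with
a root of unity `ζ`), the forms `x|D_j . y|D_j` given by the double surfaces `D_j` in `Z_i` are
multiples `deg i j * form i x y`, with `deg i j` a natural number, of one nondegenerate form, and the
restriction to `D_j` is zero if `deg i j = 0` (`F`);

(3) for each non-Tate `α`, the graph whose vertices are the components and whose edges are the links
(the `D_j` with `deg i j ≠ 0` and `α` an eigenvalue on `H^2(Z_i)`, for both components `Z_i` which
contain `D_j`) is a forest, with an orientation such that for each link `D_j` the geometric genus of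
`D_j` is at most one or `α` has the same multiplicity in `H^2(D_j)` and in `H^2` of the component
above `D_j` (`hF`).

Then the conjecture holds for `H^m_HK(Y)`: the Frobenius action on `gr_j` of the monodromy
filtration of `H^m_HK(Y)` is pure of weight `m + j`, for all `j`.

Condition (2) is satisfied if each `Z_i` has one of the following properties: `H^2(Z_i)` has no
non-Tate part; `Z_i` is uniruled (`deg i j` is the intersection number of `D_j` with the general
rational curve `C` of a covering family, parametrized by a surface `S`, and `(L . C) * form i x y =
x . y . L` for an ample `L`; this is because non-Tate classes on `Z_i` come from classes on `S`); the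
Picard number of `Z_i` is one; `Z_i` is fibred over a curve in K3 surfaces and the `D_j` in `Z_i` are
fibres or have no non-Tate classes. For example, all conditions are satisfied if `Y'` is a Calabi-Yau
threefold with a degeneration of type II, with special fibre a chain of components, the interior ones
uniruled and the outer ones without non-Tate classes, which meet in K3 surfaces (the Tate conjecture
is known in this case).

The other hypotheses are known. `hI`: the Frobenius eigenvalues on the strata are algebraic integers
(Katz and Messing). `hR`: the characteristic polynomials of the Frobenius on `H^2(Z_i)` and `H^2(D_j)`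
are rational. `hS`: for a `p`-adic valuation `w`, Manin's integrality of the Newton polygons of the
Frobenius on `H^2(Z_i)` and on `H^2(D_j)`, and the Newton polygon of `H^2(D_j)` lies above the Hodge
polygon; `pg j` is the geometric genus of `D_j`. -/
theorem result {Ω : Type u} [Field Ω] [CharZero Ω] [IsAlgClosed Ω] {Γ : Type} {p f : ℕ}
    (hp : p.Prime) (hf : f ≠ 0) (Y' : Degeneration.{u, u} Ω Γ 3 (p ^ f))
    (A : DivisorClasses Y'.toSpecialFibre) (hI : IntegralFrobenius Y'.toSpecialFibre)
    (hT : A.TateConj 0) {I J : Type} [Fintype I] [Fintype J]
    (C : Components Y'.toSpecialFibre I J) (hR : C.IsRational) (w : Valuation Ω ℝ≥0)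
    (pg : J → ℕ) (hS : HasSlopes C w pg) (F : ProportionalForms C)
    (hF : ∀ α : Ω, ¬ IsTateNumber (p ^ f) α → F.IsForest pg α) (m : ℕ)
    {K : Type u} [Field K] [Algebra K Ω] {σ : K →+* K} (R : PhiNModule K σ p f)
    (h : R.IsDominated (Y'.actV m Y'.frob) (Y'.N m)) :
    R.IsPure Ω m :=
  R.isPure_of_isDominated hp.ne_zero h
    (mw_forest rfl (hp.isPrimePow.pow hf) Y' A hI hT C hR F w pg hS hF m)

end Pool.Agent.Results.MP_d037d4_ag.UniruledReduction
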